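import Mathlib

/-! Elementary facts on the counting ratios of symmetric differences. -/

namespace Pool.Agent.MP_af0b0b_lc

open Filter Topology

theorem sratio_nonneg (A : Set ℕ) (n : ℕ) : 0 ≤ ((A ∩ Set.Iio n).ncard : ℝ) / n := by positivity

theorem sratio_le_one (A : Set ℕ) (n : ℕ) : ((A ∩ Set.Iio n).ncard : ℝ) / n ≤ 1 := by
  refine div_le_one_of_le₀ ?_ (by positivity)
  have := Set.ncard_le_ncard (Set.inter_subset_right (s := A) (t := Set.Iio n)) (Set.finite_Iio n)
  rw [Set.ncard_Iio_nat] at this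
  exact_mod_cast this

theorem sratio_bdd (A : Set ℕ) :
    IsBoundedUnder (· ≤ ·) atTop fun n : ℕ => ((A ∩ Set.Iio n).ncard : ℝ) / n :=
  isBoundedUnder_of ⟨1, sratio_le_one A⟩

theorem sratio_bdd' (A : Set ℕ) :
    IsBoundedUnder (· ≥ ·) atTop fun n : ℕ => ((A ∩ Set.Iio n).ncard : ℝ) / n :=
  isBoundedUnder_of ⟨0, sratio_nonneg A⟩

theorem sratio_triangle (A B C : Set ℕ) (n : ℕ) :
    ((symmDiff A C ∩ Set.Iio n).ncard : ℝ) / n ≤
      ((symmDiff A B ∩ Set.Iio n).ncard : ℝ) / n + ((symmDiff B C ∩ Set.Iio n).ncard : ℝ) / n := by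
  rw [← add_div]
  gcongr
  have h1 : symmDiff A C ∩ Set.Iio n ⊆ (symmDiff A B ∩ Set.Iio n) ∪ (symmDiff B C ∩ Set.Iio n) := by
    rw [← Set.union_inter_distrib_right]
    exact Set.inter_subset_inter_left _ (symmDiff_triangle A B C)
  have h2 := (Set.ncard_le_ncard h1 (((Set.finite_Iio n).inter_of_right _).union
    ((Set.finite_Iio n).inter_of_right _))).trans (Set.ncard_union_le _ _)
  exact_mod_cast h2

theorem slimsup_triangle (A B C : Set ℕ) :
    limsup (fun n : ℕ => ((symmDiff A C ∩ Set.Iio n).ncard : ℝ) / n) atTop ≤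
      limsup (fun n : ℕ => ((symmDiff A B ∩ Set.Iio n).ncard : ℝ) / n) atTop +
      limsup (fun n : ℕ => ((symmDiff B C ∩ Set.Iio n).ncard : ℝ) / n) atTop := by
  refine le_trans (limsup_le_limsup (Eventually.of_forall (sratio_triangle A B C))
    (sratio_bdd' _).isCoboundedUnder_le (isBoundedUnder_of ⟨2, fun n => ?_⟩)) ?_
  · linarith [sratio_le_one (symmDiff A B) n, sratio_le_one (symmDiff B C) n]
  · exact limsup_add_le (sratio_bdd' _) (sratio_bdd _) (sratio_bdd' _).isCoboundedUnder_le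
      (sratio_bdd _)

theorem slimsup_nonneg (A : Set ℕ) :
    0 ≤ limsup (fun n : ℕ => ((A ∩ Set.Iio n).ncard : ℝ) / n) atTop :=
  le_limsup_of_frequently_le (Frequently.of_forall (sratio_nonneg A)) (sratio_bdd A)

theorem slimsup_le_one (A : Set ℕ) :
    limsup (fun n : ℕ => ((A ∩ Set.Iio n).ncard : ℝ) / n) atTop ≤ 1 :=
  limsup_le_of_le (sratio_bdd' A).isCoboundedUnder_le (Eventually.of_forall (sratio_le_one A))

theorem slimsup_eq_zero_iff (A : Set ℕ) :
    limsup (fun n : ℕ => ((A ∩ Set.Iio n).ncard : ℝ) / n) atTop = 0 ↔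
      Tendsto (fun n : ℕ => ((A ∩ Set.Iio n).ncard : ℝ) / n) atTop (𝓝 0) := by
  refine ⟨fun h => ?_, fun h => h.limsup_eq⟩
  exact tendsto_of_le_liminf_of_limsup_le
    (le_liminf_of_le (sratio_bdd A).isCoboundedUnder_ge (Eventually.of_forall (sratio_nonneg A)))
    h.le (sratio_bdd A) (sratio_bdd' A)

theorem coarse_equivalence : Equivalence fun A B : Set ℕ =>
    Tendsto (fun n : ℕ => ((symmDiff A B ∩ Set.Iio n).ncard : ℝ) / n) atTop (𝓝 0) := by
  refine ⟨fun A => by simp, fun {A B} h => by rwa [symmDiff_comm], fun {A B C} h1 h2 => ?_⟩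
  rw [← slimsup_eq_zero_iff] at h1 h2 ⊢
  have := slimsup_triangle A B C
  rw [h1, h2, add_zero] at this
  exact le_antisymm this (slimsup_nonneg _)

theorem slimsup_congr {A A' B B' : Set ℕ}
    (hA : Tendsto (fun n : ℕ => ((symmDiff A A' ∩ Set.Iio n).ncard : ℝ) / n) atTop (𝓝 0))
    (hB : Tendsto (fun n : ℕ => ((symmDiff B B' ∩ Set.Iio n).ncard : ℝ) / n) atTop (𝓝 0)) :
    limsup (fun n : ℕ => ((symmDiff A B ∩ Set.Iio n).ncard : ℝ) / n) atTop =
      limsup (fun n : ℕ => ((symmDiff A' B' ∩ Set.Iio n).ncard : ℝ) / n) atTop := by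
  have hA' := coarse_equivalence.symm hA
  have hB' := coarse_equivalence.symm hB
  rw [← slimsup_eq_zero_iff] at hA hB hA' hB'
  have h1 := slimsup_triangle A A' B
  have h2 := slimsup_triangle A' B' B
  have h3 := slimsup_triangle A' A B'
  have h4 := slimsup_triangle A B B'
  linarith

end Pool.Agent.MP_af0b0b_lc
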