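import Mathlib
import Pool.Agent.MP_af0b0b_lc.Ratio

/-! Definitions for the statement: Turing degrees, the density metric, the Hausdorff distance of
degrees and the graph of pairs at distance one half. -/

namespace Pool.Agent.MP_af0b0b_lc

open Filter Topology

open Classical in
/-- The characteristic function of `A`, as an oracle. -/
noncomputable def chi (A : Set ℕ) : ℕ →. ℕ := fun n => Part.some (if n ∈ A then 1 else 0)

/-- Turing equivalence of sets of natural numbers. -/
def turingSetoid : Setoid (Set ℕ) where
  r A B := TuringEquivalent (chi A) (chi B)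
  iseqv := ⟨fun _ => .refl _, fun h => h.symm, fun h h' => .trans _ _ _ h h'⟩

/-- The Turing degrees. -/
def Deg : Type := Quotient turingSetoid

/-- Upper density. -/
noncomputable def upperDensity (A : Set ℕ) : ℝ :=
  limsup (fun n : ℕ => ((A ∩ Set.Iio n).ncard : ℝ) / n) atTop

/-- Coarse similarity: the symmetric difference has density zero. -/
def coarseSetoid : Setoid (Set ℕ) where
  r A B := Tendsto (fun n : ℕ => ((symmDiff A B ∩ Set.Iio n).ncard : ℝ) / n) atTop (𝓝 0)
  iseqv := coarse_equivalence

/-- Coarse similarity classes. -/
def Coarse : Type := Quotient coarseSetoid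

/-- The density metric on coarse similarity classes. -/
noncomputable instance densityMetric : MetricSpace Coarse where
  dist := Quotient.lift₂ (fun A B => upperDensity (symmDiff A B))
    fun _ _ _ _ hA hB => slimsup_congr hA hB
  dist_self x := Quotient.inductionOn x fun A =>
    (slimsup_eq_zero_iff _).2 (coarse_equivalence.refl A)
  dist_comm x y := Quotient.inductionOn₂ x y fun A B =>
    congrArg upperDensity (symmDiff_comm A B)
  dist_triangle x y z := Quotient.inductionOn₃ x y z slimsup_triangle
  eq_of_dist_eq_zero {x y} := Quotient.inductionOn₂ x y fun _ _ h =>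
    Quotient.sound ((slimsup_eq_zero_iff _).1 h)

/-- The closure of a degree: the closure of the set of classes of the sets computable in it. -/
def degClosure (d : Deg) : Set Coarse :=
  closure {x | ∃ A B : Set ℕ, Quotient.mk turingSetoid B = d ∧ TuringReducible (chi A) (chi B) ∧
    x = Quotient.mk coarseSetoid A}

/-- The Hausdorff distance of two degrees. -/
noncomputable def H (a b : Deg) : ℝ := Metric.hausdorffDist (degClosure a) (degClosure b)

/-- The graph joining distinct degrees at distance one half. -/
def halfGraph : SimpleGraph Deg where
  Adj a b := a ≠ b ∧ H a b = 1 / 2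
  symm := ⟨fun _ _ h => ⟨h.1.symm, Metric.hausdorffDist_comm.trans h.2⟩⟩
  loopless := ⟨fun _ h => h.1 rfl⟩

end Pool.Agent.MP_af0b0b_lc
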